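import Mathlib

/-!
# A defective cone without loops and coloops whose secant matroid is a Terracini union
-/

set_option autoImplicit false

namespace Pool.Agent.Results.MP_0cb83c_co.ProductCone

open MvPolynomial

section Defs

variable {K : Type*} [Field K] {N : ℕ}

/-- The vanishing ideal of `X`. -/
abbrev I (X : Set (Fin N → K)) : Ideal (MvPolynomial (Fin N) K) := vanishingIdeal K X

/-- The Zariski closure of `X`. -/
def closure (X : Set (Fin N → K)) : Set (Fin N → K) := zeroLocus K (vanishingIdeal K X)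

/-- `X` is an irreducible affine cone: it is Zariski closed and its vanishing ideal is a prime ideal
that contains the homogeneous components of its members. -/
def IsIrreducibleCone (X : Set (Fin N → K)) : Prop :=
  closure X = X ∧ (I X).IsPrime ∧ ∀ p ∈ I X, ∀ d : ℕ, homogeneousComponent d p ∈ I X

/-- The set `E` of coordinates is independent in the algebraic matroid `M(X)`: the zero polynomial
is the only polynomial in the coordinates from `E` that vanishes on `X`. -/
def Indep (X : Set (Fin N → K)) (E : Finset (Fin N)) : Prop :=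
  ∀ p ∈ I X, p ∈ supported K (E : Set (Fin N)) → p = 0

/-- The rank of the algebraic matroid of `X`, which is the dimension of `X` for an irreducible
variety `X`. -/
noncomputable def dim (X : Set (Fin N → K)) : ℕ :=
  sSup {k | ∃ E : Finset (Fin N), Indep X E ∧ E.card = k}

/-- The (second) secant variety. -/
def sec (X : Set (Fin N → K)) : Set (Fin N → K) :=
  closure {z | ∃ x ∈ X, ∃ y ∈ X, z = x + y}

/-- `X` is defective. -/
def Defective (X : Set (Fin N → K)) : Prop := dim (sec X) < min (2 * dim X) N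

/-- The matroid of the secant variety is the matroid union of two copies of `M(X)`. -/
def IsTerraciniUnion (X : Set (Fin N → K)) : Prop :=
  ∀ E : Finset (Fin N), Indep (sec X) E ↔
    ∃ E₁ E₂ : Finset (Fin N), Indep X E₁ ∧ Indep X E₂ ∧ E = E₁ ∪ E₂

/-- Bases of `M(X)`: the maximal independent sets. -/
def IsBase (X : Set (Fin N → K)) (B : Finset (Fin N)) : Prop := Maximal (Indep X) B

/-- `e` is a loop of `M(X)`: it lies in no independent set. -/
def IsLoop (X : Set (Fin N → K)) (e : Fin N) : Prop := ∀ E, Indep X E → e ∉ E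

/-- `e` is a coloop of `M(X)`: it lies in every basis. -/
def IsColoop (X : Set (Fin N → K)) (e : Fin N) : Prop := ∀ B, IsBase X B → e ∈ B

end Defs

/-! ### The Jacobian criterion -/

section Jac

variable {K : Type*} [Field K]

lemma jd_chain {ι κ : Type} [Fintype κ] (φ : κ → MvPolynomial ι K) (p : ι)
    (F : MvPolynomial κ K) :
    pderiv p (aeval φ F) = ∑ m, aeval φ (pderiv m F) * pderiv p (φ m) := by
  classical
  induction F using MvPolynomial.induction_on with
  | C a => simp [algebraMap_eq]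
  | add f g hf hg =>
    simp only [map_add, hf, hg, add_mul, Finset.sum_add_distrib]
  | mul_X f n hf =>
    simp only [map_mul, aeval_X, pderiv_mul, hf, map_add, add_mul, Finset.sum_add_distrib, pderiv_X]
    congr 1
    · rw [Finset.sum_mul]
      exact Finset.sum_congr rfl fun m _ => by ring
    · rw [Finset.sum_eq_single n]
      · simp
      · intro b _ hb
        rw [Pi.single_eq_of_ne (Ne.symm hb)]
        simp
      · simp

lemma jd_zero {ι κ : Type} [Fintype κ] (E : Set κ) (g : κ → ι → MvPolynomial ι K)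
    (H : ∀ v : κ → K, (∀ i ∉ E, v i = 0) → (∀ p : ι, ∑ m, v m * eval 0 (g m p) = 0) → v = 0)
    (w : κ → MvPolynomial ι K) (hE : ∀ i ∉ E, w i = 0) (hw : ∀ p, ∑ m, w m * g m p = 0) :
    ∀ m, w m = 0 := by
  classical
  have key : ∀ n : ℕ, ∀ s : ι →₀ ℕ, s.degree = n → ∀ m, coeff s (w m) = 0 := by
    intro n
    induction n using Nat.strong_induction_on with
    | _ n ih =>
      intro s hs
      have := H (fun m => coeff s (w m)) (by intro i hi; rw [hE i hi, coeff_zero]) ?_
      · intro m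
        exact congrFun this m
      · intro p
        have h1 := congrArg (coeff s) (hw p)
        rw [coeff_sum, coeff_zero] at h1
        rw [← h1]
        refine Finset.sum_congr rfl fun m _ => ?_
        rw [coeff_mul, Finset.sum_eq_single (s, 0)]
        · have e0 : eval 0 (g m p) = coeff 0 (g m p) := by
            rw [← constantCoeff_eq, eval_zero]
          rw [e0]
        · rintro ⟨a, b⟩ hab hne
          have hab : a + b = s := by simpa using hab
          have hb : b ≠ 0 := by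
            rintro rfl
            apply hne
            rw [add_zero] at hab
            rw [hab]
          have hdeg : a.degree + b.degree = n := by
            rw [← hs, ← hab, map_add]
          have hb' : b.degree ≠ 0 := by
            intro h
            exact hb ((Finsupp.degree_eq_zero_iff b).1 h)
          rw [ih a.degree (by omega) a rfl m, zero_mul]
        · intro h
          exact absurd (by simp) h
  intro m
  ext s
  rw [coeff_zero]
  exact key _ s rfl m

lemma pderiv_supported {κ : Type} (E : Set κ) (F : MvPolynomial κ K)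
    (hF : F ∈ supported K E) (i : κ) : pderiv i F ∈ supported K E ∧ (i ∉ E → pderiv i F = 0) := by
  classical
  unfold supported at hF ⊢
  induction hF using Algebra.adjoin_induction with
  | mem x hx =>
    obtain ⟨j, hj, rfl⟩ := hx
    rw [pderiv_X]
    by_cases h : i = j
    · subst h
      rw [Pi.single_eq_same]
      exact ⟨Subalgebra.one_mem _, fun h => absurd hj h⟩
    · rw [Pi.single_eq_of_ne (Ne.symm h)]
      exact ⟨Subalgebra.zero_mem _, fun _ => rfl⟩
  | algebraMap r =>
    rw [algebraMap_eq, pderiv_C]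
    exact ⟨Subalgebra.zero_mem _, fun _ => rfl⟩
  | add x y _ _ hx hy =>
    rw [map_add]
    refine ⟨Subalgebra.add_mem _ hx.1 hy.1, fun h => ?_⟩
    rw [hx.2 h, hy.2 h, add_zero]
  | mul x y hx' hy' hx hy =>
    rw [pderiv_mul]
    refine ⟨Subalgebra.add_mem _ (Subalgebra.mul_mem _ hx.1 hy') (Subalgebra.mul_mem _ hx' hy.1),
      fun h => ?_⟩
    rw [hx.2 h, hy.2 h, zero_mul, mul_zero, add_zero]

/-- Jacobian criterion at the origin. -/
lemma jacobian_zero [CharZero K] {ι κ : Type} [Fintype ι] [Fintype κ]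
    (φ : κ → MvPolynomial ι K) (E : Set κ)
    (H : ∀ v : κ → K, (∀ i ∉ E, v i = 0) →
      (∀ p : ι, ∑ m, v m * eval 0 (pderiv p (φ m)) = 0) → v = 0)
    (F : MvPolynomial κ K) (hFE : F ∈ supported K E) (hF : aeval φ F = 0) : F = 0 := by
  classical
  have key : ∀ n : ℕ, ∀ F : MvPolynomial κ K, F ∈ supported K E →
      (∀ s : κ →₀ ℕ, n ≤ s.degree → coeff s F = 0) → aeval φ F = 0 → F = 0 := by
    intro n
    induction n with
    | zero =>
      intro F _ hs _
      ext s
      rw [hs s (Nat.zero_le _), coeff_zero]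
    | succ n ih =>
      intro F hFE hs hF
      have hw : ∀ m, aeval φ (pderiv m F) = 0 := by
        refine jd_zero E (fun m p => pderiv p (φ m)) H _ ?_ ?_
        · intro i hi
          rw [(pderiv_supported E F hFE i).2 hi, map_zero]
        · intro p
          rw [← jd_chain φ p F, hF, map_zero]
      have hd : ∀ m, pderiv m F = 0 := by
        intro m
        refine ih _ (pderiv_supported E F hFE m).1 ?_ (hw m)
        intro s hsn
        rw [coeff_pderiv, hs, zero_mul]
        rw [map_add, Finsupp.degree_single]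
        omega
      have hC : F = C (coeff 0 F) := by
        ext s
        rw [coeff_C]
        split_ifs with h
        · rw [h]
        · have : ∃ i, s i ≠ 0 := by
            by_contra hcon
            push Not at hcon
            exact h (Finsupp.ext hcon).symm
          obtain ⟨i, hi⟩ := this
          have h2 : s - Finsupp.single i 1 + Finsupp.single i 1 = s := by
            ext j
            by_cases hj : j = i
            · subst hj
              simp
              omega
            · simp [Finsupp.single_eq_of_ne hj]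
          have h3 := coeff_pderiv (i := i) F (s - Finsupp.single i 1)
          rw [hd i, coeff_zero, h2] at h3
          rcases mul_eq_zero.1 h3.symm with h4 | h4
          · exact h4
          · exact absurd h4 (Nat.cast_add_one_ne_zero _)
      rw [hC] at hF
      rw [aeval_C, algebraMap_eq] at hF
      rw [hC, (C_eq_zero).1 hF, C_0]
  refine key (F.support.sup (fun s => s.degree) + 1) F hFE ?_ hF
  intro s hs
  by_contra h
  have : s.degree ≤ F.support.sup (fun s => s.degree) :=
    Finset.le_sup (f := fun s => s.degree) (mem_support_iff.2 h)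
  omega

/-- Jacobian criterion at an arbitrary point. -/
lemma jacobian_at [CharZero K] {ι κ : Type} [Fintype ι] [Fintype κ]
    (φ : κ → MvPolynomial ι K) (E : Set κ) (u0 : ι → K)
    (H : ∀ v : κ → K, (∀ i ∉ E, v i = 0) →
      (∀ p : ι, ∑ m, v m * eval u0 (pderiv p (φ m)) = 0) → v = 0)
    (F : MvPolynomial κ K) (hFE : F ∈ supported K E) (hF : aeval φ F = 0) : F = 0 := by
  classical
  let T : MvPolynomial ι K →ₐ[K] MvPolynomial ι K := aeval (fun p => X p + C (u0 p))
  have hT : ∀ p q, pderiv p (T q) = T (pderiv p q) := by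
    intro p q
    rw [jd_chain, Finset.sum_eq_single p]
    · simp [T]
    · intro b _ hb
      simp [pderiv_X, Pi.single_eq_of_ne hb]
    · simp
  have hE : ∀ q, eval 0 (T q) = eval u0 q := by
    intro q
    induction q using MvPolynomial.induction_on with
    | C a => simp [T]
    | add f g hf hg => simp only [map_add, hf, hg]
    | mul_X f n hf =>
      rw [map_mul, map_mul, map_mul, hf]
      simp [T]
  refine jacobian_zero (fun m => T (φ m)) E ?_ F hFE ?_
  · intro v hvE hv
    apply H v hvE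
    intro p
    rw [← hv p]
    refine Finset.sum_congr rfl fun m _ => ?_
    rw [hT, hE]
  · have h1 : aeval (fun m => T (φ m)) F = T (aeval φ F) := by
      have h2 := MvPolynomial.comp_aeval_apply φ T F
      rw [h2]
    rw [h1, hF, map_zero]

end Jac

/-! ### The cone -/

section Cone

variable {K : Type*} [Field K]

/-- the parametrisation by polynomials -/
noncomputable def f : Fin 8 → MvPolynomial (Fin 4) K :=
  ![X 0 ^ 4, X 0 ^ 3 * X 1, X 0 ^ 2 * X 1 ^ 2, X 0 * X 1 ^ 3, X 1 ^ 4,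
    X 2 ^ 2, X 2 * X 3, X 3 ^ 2]

/-- the parametrisation of the secant variety by polynomials -/
noncomputable def g : Fin 8 → MvPolynomial (Fin 8) K :=
  ![X 0 ^ 4 + X 4 ^ 4, X 0 ^ 3 * X 1 + X 4 ^ 3 * X 5, X 0 ^ 2 * X 1 ^ 2 + X 4 ^ 2 * X 5 ^ 2,
    X 0 * X 1 ^ 3 + X 4 * X 5 ^ 3, X 1 ^ 4 + X 5 ^ 4,
    X 2 ^ 2 + X 6 ^ 2, X 2 * X 3 + X 6 * X 7, X 3 ^ 2 + X 7 ^ 2]

/-- the parametrisation -/
noncomputable def Phi (u : Fin 4 → K) : Fin 8 → K := fun i => eval u (f i)

/-- the cone -/
def Cone (K : Type*) [Field K] : Set (Fin 8 → K) := closure (Set.range (Phi (K := K)))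

lemma mem_I_closure {N : ℕ} (X : Set (Fin N → K)) (p : MvPolynomial (Fin N) K) :
    p ∈ I (closure X) ↔ p ∈ I X := by
  constructor
  · intro h x hx
    exact h x (fun q hq => hq x hx)
  · intro h x hx
    exact hx p h

lemma closure_closure {N : ℕ} (X : Set (Fin N → K)) : closure (closure X) = closure X := by
  ext x
  constructor
  · intro h p hp
    exact h p ((mem_I_closure X p).2 hp)
  · intro h p hp
    exact h p ((mem_I_closure X p).1 hp)

lemma mem_I_cone (p : MvPolynomial (Fin 8) K) :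
    p ∈ I (Cone K) ↔ ∀ u, eval (Phi u) p = 0 := by
  unfold Cone
  rw [mem_I_closure]
  constructor
  · intro h u
    have := h (Phi u) ⟨u, rfl⟩
    rwa [aeval_eq_eval] at this
  · rintro h _ ⟨u, rfl⟩
    rw [aeval_eq_eval]
    exact h u

lemma eval_comp {ι κ : Type} (φ : κ → MvPolynomial ι K) (u : ι → K) (p : MvPolynomial κ K) :
    eval u (aeval φ p) = eval (fun i => eval u (φ i)) p := by
  have h := MvPolynomial.comp_aeval_apply φ (aeval (R := K) u) p
  rw [aeval_eq_eval] at h
  rw [h, aeval_eq_eval]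

lemma mem_I_cone' [Infinite K] (p : MvPolynomial (Fin 8) K) :
    p ∈ I (Cone K) ↔ aeval (f (K := K)) p = 0 := by
  rw [mem_I_cone]
  constructor
  · intro h
    apply MvPolynomial.funext
    intro u
    rw [eval_comp, map_zero]
    exact h u
  · intro h u
    have := eval_comp f u p
    rw [h, map_zero] at this
    exact this.symm

lemma mem_I_sec (p : MvPolynomial (Fin 8) K) :
    p ∈ I (sec (Cone K)) ↔ ∀ u v, eval (Phi u + Phi v) p = 0 := by
  unfold sec
  rw [mem_I_closure]
  constructor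
  · intro h u v
    have hu : Phi u ∈ Cone K := fun q hq => hq _ ⟨u, rfl⟩
    have hv : Phi v ∈ Cone K := fun q hq => hq _ ⟨v, rfl⟩
    have := h (Phi u + Phi v) ⟨_, hu, _, hv, rfl⟩
    rwa [aeval_eq_eval] at this
  · rintro h _ ⟨x, hx, y, hy, rfl⟩
    have step : ∀ (q : MvPolynomial (Fin 8) K) (z : Fin 8 → K),
        (∀ u, eval (Phi u + z) q = 0) → ∀ x ∈ Cone K, eval (x + z) q = 0 := by
      intro q z hq x hx
      have h1 : (aeval (fun i => X i + C (z i)) q : MvPolynomial (Fin 8) K) ∈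
          vanishingIdeal K (Set.range (Phi (K := K))) := by
        rintro _ ⟨u, rfl⟩
        rw [aeval_eq_eval]
        rw [eval_comp]
        have h2 : (fun i => eval (Phi u) (X i + C (z i) : MvPolynomial (Fin 8) K)) = Phi u + z := by
          funext i
          simp
        rw [h2]
        exact hq u
      have h3 := hx _ h1
      rw [aeval_eq_eval, eval_comp] at h3
      have h2 : (fun i => eval x (X i + C (z i) : MvPolynomial (Fin 8) K)) = x + z := by
        funext i
        simp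
      rw [h2] at h3
      exact h3
    rw [aeval_eq_eval]
    apply step p y _ x hx
    intro u
    rw [add_comm]
    apply step p (Phi u) _ y hy
    intro v
    exact h v u

lemma eval_g (w : Fin 8 → K) : (fun i => eval w (g i)) =
    Phi (fun i : Fin 4 => w (Fin.castLE (by norm_num) i)) +
      Phi (fun i : Fin 4 => w (Fin.natAdd 4 i)) := by
  funext i
  fin_cases i <;> simp [g, Phi, f]

lemma mem_I_sec' [Infinite K] (p : MvPolynomial (Fin 8) K) :
    p ∈ I (sec (Cone K)) ↔ aeval (g (K := K)) p = 0 := by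
  rw [mem_I_sec]
  constructor
  · intro h
    apply MvPolynomial.funext
    intro w
    rw [eval_comp, map_zero, eval_g]
    exact h _ _
  · intro h u v
    have := eval_comp g (Fin.append u v) p
    rw [h, map_zero, eval_g] at this
    have hu : (fun i : Fin 4 => Fin.append u v (Fin.castLE (by norm_num) i)) = u := by
      funext i
      fin_cases i <;> rfl
    have hv : (fun i : Fin 4 => Fin.append u v (Fin.natAdd 4 i)) = v := by
      funext i
      fin_cases i <;> rfl
    rw [hu, hv] at this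
    exact this.symm

/-! ### The cone is an irreducible cone -/

lemma coeff_line {N : ℕ} (x : Fin N → K) (p : MvPolynomial (Fin N) K) (d : ℕ) :
    (aeval (fun i => Polynomial.C (x i) * Polynomial.X) p : Polynomial K).coeff d =
      eval x (homogeneousComponent d p) := by
  classical
  induction p using MvPolynomial.induction_on' with
  | monomial m c =>
    have h1 : (aeval (fun i => Polynomial.C (x i) * Polynomial.X) (monomial m c) : Polynomial K) =
        Polynomial.C (eval x (monomial m c)) * Polynomial.X ^ m.degree := by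
      have hdeg : m.degree = ∑ i ∈ m.support, m i := rfl
      rw [aeval_monomial, eval_monomial, Finsupp.prod, Finsupp.prod, Polynomial.C_mul, map_prod,
        hdeg, ← Finset.prod_pow_eq_pow_sum, mul_assoc, ← Finset.prod_mul_distrib]
      congr 1
      refine Finset.prod_congr rfl fun i _ => ?_
      rw [mul_pow, Polynomial.C_pow]
    rw [h1, Polynomial.coeff_C_mul_X_pow]
    have h2 : (monomial m c : MvPolynomial (Fin N) K) ∈ homogeneousSubmodule (Fin N) K m.degree := by
      rw [mem_homogeneousSubmodule]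
      exact isHomogeneous_monomial c rfl
    rw [homogeneousComponent_of_mem h2]
    by_cases h : d = m.degree
    · rw [if_pos h, if_pos h]
    · rw [if_neg h, if_neg h, map_zero]
  | add p q hp hq =>
    rw [map_add, Polynomial.coeff_add, hp, hq, map_add, map_add]

lemma irreducible_cone [IsAlgClosed K] : IsIrreducibleCone (Cone K) := by
  have : Infinite K := IsAlgClosed.instInfinite
  refine ⟨closure_closure _, ?_, ?_⟩
  · have h : I (Cone K) = RingHom.ker (aeval f : MvPolynomial (Fin 8) K →ₐ[K] MvPolynomial (Fin 4) K).toRingHom := by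
      ext p
      rw [mem_I_cone']
      rfl
    rw [h]
    exact RingHom.ker_isPrime _
  · intro p hp d
    rw [mem_I_cone] at hp ⊢
    intro u
    rw [← coeff_line]
    have h0 : (aeval (fun i => Polynomial.C (Phi u i) * Polynomial.X) p : Polynomial K) = 0 := by
      apply Polynomial.funext
      intro c
      rw [Polynomial.eval_zero]
      obtain ⟨μ, hμ⟩ := IsAlgClosed.exists_pow_nat_eq c (n := 4) (by norm_num)
      obtain ⟨ν, hν⟩ := IsAlgClosed.exists_pow_nat_eq c (n := 2) (by norm_num)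
      have h1 := hp ![μ * u 0, μ * u 1, ν * u 2, ν * u 3]
      have h2 : Phi ![μ * u 0, μ * u 1, ν * u 2, ν * u 3] = fun i => Phi u i * c := by
        funext i
        fin_cases i <;> simp [Phi, f] <;> first | (rw [← hμ]; ring1) | (rw [← hν]; ring1)
      rw [h2] at h1
      have h3 := MvPolynomial.comp_aeval_apply
        (fun i => Polynomial.C (Phi u i) * Polynomial.X) (Polynomial.aeval c : Polynomial K →ₐ[K] K) p
      rw [Polynomial.coe_aeval_eq_eval] at h3
      rw [h3]
      have h4 : (fun i => Polynomial.eval c (Polynomial.C (Phi u i) * Polynomial.X)) =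
          fun i => Phi u i * c := by
        funext i
        simp
      rw [h4, aeval_eq_eval]
      exact h1
    rw [h0, Polynomial.coeff_zero]

/-! ### Independent and dependent sets -/

/-- the coordinates of the quartic -/
def A : Finset (Fin 8) := {0, 1, 2, 3, 4}

/-- the coordinates of the conic -/
def B : Finset (Fin 8) := {5, 6, 7}

set_option synthInstance.maxSize 2000 in
lemma decA : ∀ E : Finset (Fin 8), (E ∩ A).card ≤ 2 →
    (0 ∉ E ∧ 1 ∉ E ∧ 2 ∉ E) ∨
    (0 ∉ E ∧ 1 ∉ E ∧ 3 ∉ E) ∨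
    (0 ∉ E ∧ 1 ∉ E ∧ 4 ∉ E) ∨
    (0 ∉ E ∧ 2 ∉ E ∧ 3 ∉ E) ∨
    (0 ∉ E ∧ 2 ∉ E ∧ 4 ∉ E) ∨
    (0 ∉ E ∧ 3 ∉ E ∧ 4 ∉ E) ∨
    (1 ∉ E ∧ 2 ∉ E ∧ 3 ∉ E) ∨
    (1 ∉ E ∧ 2 ∉ E ∧ 4 ∉ E) ∨
    (1 ∉ E ∧ 3 ∉ E ∧ 4 ∉ E) ∨
    (2 ∉ E ∧ 3 ∉ E ∧ 4 ∉ E) := by
  decide +kernel

lemma decB : ∀ E : Finset (Fin 8), (E ∩ B).card ≤ 2 → 5 ∉ E ∨ 6 ∉ E ∨ 7 ∉ E := by
  decide +kernel

lemma indep_cone_of [CharZero K] (E : Finset (Fin 8)) (hA : (E ∩ A).card ≤ 2)
    (hB : (E ∩ B).card ≤ 2) : Indep (Cone K) E := by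
  have : Infinite K := CharZero.infinite K
  intro p hp hE
  rw [mem_I_cone'] at hp
  refine jacobian_at f (E : Set (Fin 8)) (fun _ => 1) ?_ p hE hp
  intro v hv h
  have h0 := h 0
  have h1 := h 1
  have h2 := h 2
  have h3 := h 3
  simp [Fin.sum_univ_succ, f, pderiv_X, Derivation.leibniz_pow, Fin.ext_iff] at h0 h1 h2 h3
  have hAll : v 0 = 0 ∧ v 1 = 0 ∧ v 2 = 0 ∧ v 3 = 0 ∧ v 4 = 0 := by
    rcases decA E hA with hc | hc | hc | hc | hc | hc | hc | hc | hc | hc
    · have z0 := hv 0 (by simpa using hc.1)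
      have z1 := hv 1 (by simpa using hc.2.1)
      have z2 := hv 2 (by simpa using hc.2.2)
      have z3 : v 3 = 0 := by linear_combination (1) * h0 + (0) * h1 + (-4) * z0 + (-3) * z1 + (-2) * z2
      have z4 : v 4 = 0 := by linear_combination (-3/4) * h0 + (1/4) * h1 + (3) * z0 + (2) * z1 + (1) * z2
      exact ⟨z0, z1, z2, z3, z4⟩
    · have z0 := hv 0 (by simpa using hc.1)
      have z1 := hv 1 (by simpa using hc.2.1)
      have z3 := hv 3 (by simpa using hc.2.2)
      have z2 : v 2 = 0 := by linear_combination (1/2) * h0 + (0) * h1 + (-2) * z0 + (-3/2) * z1 + (-1/2) * z3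
      have z4 : v 4 = 0 := by linear_combination (-1/4) * h0 + (1/4) * h1 + (1) * z0 + (1/2) * z1 + (-1/2) * z3
      exact ⟨z0, z1, z2, z3, z4⟩
    · have z0 := hv 0 (by simpa using hc.1)
      have z1 := hv 1 (by simpa using hc.2.1)
      have z4 := hv 4 (by simpa using hc.2.2)
      have z2 : v 2 = 0 := by linear_combination (3/4) * h0 + (-1/4) * h1 + (-3) * z0 + (-2) * z1 + (1) * z4
      have z3 : v 3 = 0 := by linear_combination (-1/2) * h0 + (1/2) * h1 + (2) * z0 + (1) * z1 + (-2) * z4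
      exact ⟨z0, z1, z2, z3, z4⟩
    · have z0 := hv 0 (by simpa using hc.1)
      have z2 := hv 2 (by simpa using hc.2.1)
      have z3 := hv 3 (by simpa using hc.2.2)
      have z1 : v 1 = 0 := by linear_combination (1/3) * h0 + (0) * h1 + (-4/3) * z0 + (-2/3) * z2 + (-1/3) * z3
      have z4 : v 4 = 0 := by linear_combination (-1/12) * h0 + (1/4) * h1 + (1/3) * z0 + (-1/3) * z2 + (-2/3) * z3
      exact ⟨z0, z1, z2, z3, z4⟩
    · have z0 := hv 0 (by simpa using hc.1)
      have z2 := hv 2 (by simpa using hc.2.1)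
      have z4 := hv 4 (by simpa using hc.2.2)
      have z1 : v 1 = 0 := by linear_combination (3/8) * h0 + (-1/8) * h1 + (-3/2) * z0 + (-1/2) * z2 + (1/2) * z4
      have z3 : v 3 = 0 := by linear_combination (-1/8) * h0 + (3/8) * h1 + (1/2) * z0 + (-1/2) * z2 + (-3/2) * z4
      exact ⟨z0, z1, z2, z3, z4⟩
    · have z0 := hv 0 (by simpa using hc.1)
      have z3 := hv 3 (by simpa using hc.2.1)
      have z4 := hv 4 (by simpa using hc.2.2)
      have z1 : v 1 = 0 := by linear_combination (1/2) * h0 + (-1/2) * h1 + (-2) * z0 + (1) * z3 + (2) * z4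
      have z2 : v 2 = 0 := by linear_combination (-1/4) * h0 + (3/4) * h1 + (1) * z0 + (-2) * z3 + (-3) * z4
      exact ⟨z0, z1, z2, z3, z4⟩
    · have z1 := hv 1 (by simpa using hc.1)
      have z2 := hv 2 (by simpa using hc.2.1)
      have z3 := hv 3 (by simpa using hc.2.2)
      have z0 : v 0 = 0 := by linear_combination (1/4) * h0 + (0) * h1 + (-3/4) * z1 + (-1/2) * z2 + (-1/4) * z3
      have z4 : v 4 = 0 := by linear_combination (0) * h0 + (1/4) * h1 + (-1/4) * z1 + (-1/2) * z2 + (-3/4) * z3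
      exact ⟨z0, z1, z2, z3, z4⟩
    · have z1 := hv 1 (by simpa using hc.1)
      have z2 := hv 2 (by simpa using hc.2.1)
      have z4 := hv 4 (by simpa using hc.2.2)
      have z0 : v 0 = 0 := by linear_combination (1/4) * h0 + (-1/12) * h1 + (-2/3) * z1 + (-1/3) * z2 + (1/3) * z4
      have z3 : v 3 = 0 := by linear_combination (0) * h0 + (1/3) * h1 + (-1/3) * z1 + (-2/3) * z2 + (-4/3) * z4
      exact ⟨z0, z1, z2, z3, z4⟩
    · have z1 := hv 1 (by simpa using hc.1)
      have z3 := hv 3 (by simpa using hc.2.1)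
      have z4 := hv 4 (by simpa using hc.2.2)
      have z0 : v 0 = 0 := by linear_combination (1/4) * h0 + (-1/4) * h1 + (-1/2) * z1 + (1/2) * z3 + (1) * z4
      have z2 : v 2 = 0 := by linear_combination (0) * h0 + (1/2) * h1 + (-1/2) * z1 + (-3/2) * z3 + (-2) * z4
      exact ⟨z0, z1, z2, z3, z4⟩
    · have z2 := hv 2 (by simpa using hc.1)
      have z3 := hv 3 (by simpa using hc.2.1)
      have z4 := hv 4 (by simpa using hc.2.2)
      have z0 : v 0 = 0 := by linear_combination (1/4) * h0 + (-3/4) * h1 + (1) * z2 + (2) * z3 + (3) * z4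
      have z1 : v 1 = 0 := by linear_combination (0) * h0 + (1) * h1 + (-2) * z2 + (-3) * z3 + (-4) * z4
      exact ⟨z0, z1, z2, z3, z4⟩
  have hBll : v 5 = 0 ∧ v 6 = 0 ∧ v 7 = 0 := by
    rcases decB E hB with hc | hc | hc
    · have z5 := hv 5 (by simpa using hc)
      have z6 : v 6 = 0 := by linear_combination h2 - 2 * z5
      have z7 : v 7 = 0 := by linear_combination (1/2) * h3 - (1/2) * z6
      exact ⟨z5, z6, z7⟩
    · have z6 := hv 6 (by simpa using hc)
      have z5 : v 5 = 0 := by linear_combination (1/2) * h2 - (1/2) * z6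
      have z7 : v 7 = 0 := by linear_combination (1/2) * h3 - (1/2) * z6
      exact ⟨z5, z6, z7⟩
    · have z7 := hv 7 (by simpa using hc)
      have z6 : v 6 = 0 := by linear_combination h3 - 2 * z7
      have z5 : v 5 = 0 := by linear_combination (1/2) * h2 - (1/2) * z6
      exact ⟨z5, z6, z7⟩
  funext i
  fin_cases i
  · exact hAll.1
  · exact hAll.2.1
  · exact hAll.2.2.1
  · exact hAll.2.2.2.1
  · exact hAll.2.2.2.2
  · exact hBll.1
  · exact hBll.2.1
  · exact hBll.2.2

lemma decS : ∀ E : Finset (Fin 8), ¬ A ⊆ E → 0 ∉ E ∨ 1 ∉ E ∨ 2 ∉ E ∨ 3 ∉ E ∨ 4 ∉ E := by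
  decide +kernel

lemma indep_sec_of [CharZero K] (E : Finset (Fin 8)) (hA : ¬ A ⊆ E) : Indep (sec (Cone K)) E := by
  have : Infinite K := CharZero.infinite K
  intro p hp hE
  rw [mem_I_sec'] at hp
  refine jacobian_at g (E : Set (Fin 8)) ![1, 1, 1, 0, 1, 2, 0, 1] ?_ p hE hp
  intro v hv h
  have h0 := h 0
  have h1 := h 1
  have h2 := h 2
  have h3 := h 3
  have h4 := h 4
  have h5 := h 5
  have h6 := h 6
  have h7 := h 7
  simp [Fin.sum_univ_succ, g, pderiv_X, Derivation.leibniz_pow, Fin.ext_iff] at h0 h1 h2 h3 h4 h5 h6 h7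
  have e0 : v 0 = (4) * v 4 := by linear_combination (-1) * h0 + (-5) * h1 + (5/4) * h4 + (1/2) * h5
  have e1 : v 1 = (-12) * v 4 := by linear_combination (3) * h0 + (11) * h1 + (-3) * h4 + (-1) * h5
  have e2 : v 2 = (13) * v 4 := by linear_combination (-9/4) * h0 + (-29/4) * h1 + (9/4) * h4 + (1/2) * h5
  have e3 : v 3 = (-6) * v 4 := by linear_combination (1/2) * h0 + (3/2) * h1 + (-1/2) * h4 + (0) * h5
  have e4 : v 4 = 0 := by
    rcases decS E hA with hc | hc | hc | hc | hc
    · have z := hv 0 (by simpa using hc)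
      linear_combination (1/4) * z - (1/4) * e0
    · have z := hv 1 (by simpa using hc)
      linear_combination (-1/12) * z + (1/12) * e1
    · have z := hv 2 (by simpa using hc)
      linear_combination (1/13) * z - (1/13) * e2
    · have z := hv 3 (by simpa using hc)
      linear_combination (-1/6) * z + (1/6) * e3
    · exact hv 4 (by simpa using hc)
  rw [e4, mul_zero] at e0 e1 e2 e3
  funext i
  fin_cases i
  · exact e0
  · exact e1
  · exact e2
  · exact e3
  · exact e4
  · exact h2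
  · exact h3
  · exact h7

lemma X_mem {i : Fin 8} {E : Finset (Fin 8)} (h : i ∈ E) :
    (X i : MvPolynomial (Fin 8) K) ∈ supported K (E : Set (Fin 8)) :=
  (X_mem_supported (R := K)).2 h

lemma not_indep_sec [Infinite K] (E : Finset (Fin 8)) (hA : A ⊆ E) : ¬ Indep (sec (Cone K)) E := by
  intro h
  have m0 : (X 0 : MvPolynomial (Fin 8) K) ∈ supported K (E : Set (Fin 8)) := X_mem (hA (by decide))
  have m1 : (X 1 : MvPolynomial (Fin 8) K) ∈ supported K (E : Set (Fin 8)) := X_mem (hA (by decide))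
  have m2 : (X 2 : MvPolynomial (Fin 8) K) ∈ supported K (E : Set (Fin 8)) := X_mem (hA (by decide))
  have m3 : (X 3 : MvPolynomial (Fin 8) K) ∈ supported K (E : Set (Fin 8)) := X_mem (hA (by decide))
  have m4 : (X 4 : MvPolynomial (Fin 8) K) ∈ supported K (E : Set (Fin 8)) := X_mem (hA (by decide))
  have h1 := h (X 0 * X 2 * X 4 + (X 1 * X 2 * X 3 + X 1 * X 2 * X 3) - X 2 ^ 3 - X 0 * X 3 ^ 2 -
    X 1 ^ 2 * X 4) ?_ ?_
  · have h2 := congrArg (eval ![0, 0, 1, 0, 0, 0, 0, 0]) h1
    simp at h2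
  · rw [mem_I_sec]
    intro u v
    simp [Phi, f]
    ring
  · refine Subalgebra.sub_mem _ (Subalgebra.sub_mem _ (Subalgebra.sub_mem _
      (Subalgebra.add_mem _ ?_ (Subalgebra.add_mem _ ?_ ?_)) ?_) ?_) ?_
    · exact Subalgebra.mul_mem _ (Subalgebra.mul_mem _ m0 m2) m4
    · exact Subalgebra.mul_mem _ (Subalgebra.mul_mem _ m1 m2) m3
    · exact Subalgebra.mul_mem _ (Subalgebra.mul_mem _ m1 m2) m3
    · exact Subalgebra.pow_mem _ m2 3
    · exact Subalgebra.mul_mem _ m0 (Subalgebra.pow_mem _ m3 2)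
    · exact Subalgebra.mul_mem _ (Subalgebra.pow_mem _ m1 2) m4

lemma dep (E : Finset (Fin 8)) (C : Prop) (h : Indep (Cone K) E) (p : MvPolynomial (Fin 8) K)
    (x : Fin 8 → K) (hx : eval x p ≠ 0) (hp : ∀ u, eval (Phi u) p = 0)
    (hE : p ∈ supported K (E : Set (Fin 8))) : C := by
  exfalso
  apply hx
  rw [h p ((mem_I_cone p).2 hp) hE, map_zero]

lemma decD : ∀ E : Finset (Fin 8), ¬ ((E ∩ A).card ≤ 2 ∧ (E ∩ B).card ≤ 2) →
    (0 ∈ E ∧ 1 ∈ E ∧ 2 ∈ E) ∨
    (0 ∈ E ∧ 1 ∈ E ∧ 3 ∈ E) ∨
    (0 ∈ E ∧ 1 ∈ E ∧ 4 ∈ E) ∨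
    (0 ∈ E ∧ 2 ∈ E ∧ 3 ∈ E) ∨
    (0 ∈ E ∧ 2 ∈ E ∧ 4 ∈ E) ∨
    (0 ∈ E ∧ 3 ∈ E ∧ 4 ∈ E) ∨
    (1 ∈ E ∧ 2 ∈ E ∧ 3 ∈ E) ∨
    (1 ∈ E ∧ 2 ∈ E ∧ 4 ∈ E) ∨
    (1 ∈ E ∧ 3 ∈ E ∧ 4 ∈ E) ∨
    (2 ∈ E ∧ 3 ∈ E ∧ 4 ∈ E) ∨ (5 ∈ E ∧ 6 ∈ E ∧ 7 ∈ E) := by
  decide +kernel

lemma indep_cone_iff [CharZero K] (E : Finset (Fin 8)) :
    Indep (Cone K) E ↔ (E ∩ A).card ≤ 2 ∧ (E ∩ B).card ≤ 2 := by
  refine ⟨fun h => ?_, fun h => indep_cone_of E h.1 h.2⟩
  by_contra hcon
  rcases decD E hcon with hc | hc | hc | hc | hc | hc | hc | hc | hc | hc | hc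
  · apply dep E _ h (X 1 ^ 2 - X 0 ^ 1 * X 2 ^ 1) ![0, 1, 0, 0, 0, 0, 0, 0]
    · simp
    · intro u
      simp [Phi, f]
      ring
    · exact Subalgebra.sub_mem _ (Subalgebra.pow_mem _ (X_mem hc.2.1) _)
        (Subalgebra.mul_mem _ (Subalgebra.pow_mem _ (X_mem hc.1) _) (Subalgebra.pow_mem _ (X_mem hc.2.2) _))
  · apply dep E _ h (X 1 ^ 3 - X 0 ^ 2 * X 3 ^ 1) ![0, 1, 0, 0, 0, 0, 0, 0]
    · simp
    · intro u
      simp [Phi, f]
      ring
    · exact Subalgebra.sub_mem _ (Subalgebra.pow_mem _ (X_mem hc.2.1) _)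
        (Subalgebra.mul_mem _ (Subalgebra.pow_mem _ (X_mem hc.1) _) (Subalgebra.pow_mem _ (X_mem hc.2.2) _))
  · apply dep E _ h (X 1 ^ 4 - X 0 ^ 3 * X 4 ^ 1) ![0, 1, 0, 0, 0, 0, 0, 0]
    · simp
    · intro u
      simp [Phi, f]
      ring
    · exact Subalgebra.sub_mem _ (Subalgebra.pow_mem _ (X_mem hc.2.1) _)
        (Subalgebra.mul_mem _ (Subalgebra.pow_mem _ (X_mem hc.1) _) (Subalgebra.pow_mem _ (X_mem hc.2.2) _))
  · apply dep E _ h (X 2 ^ 3 - X 0 ^ 1 * X 3 ^ 2) ![0, 0, 1, 0, 0, 0, 0, 0]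
    · simp
    · intro u
      simp [Phi, f]
      ring
    · exact Subalgebra.sub_mem _ (Subalgebra.pow_mem _ (X_mem hc.2.1) _)
        (Subalgebra.mul_mem _ (Subalgebra.pow_mem _ (X_mem hc.1) _) (Subalgebra.pow_mem _ (X_mem hc.2.2) _))
  · apply dep E _ h (X 2 ^ 4 - X 0 ^ 2 * X 4 ^ 2) ![0, 0, 1, 0, 0, 0, 0, 0]
    · simp
    · intro u
      simp [Phi, f]
      ring
    · exact Subalgebra.sub_mem _ (Subalgebra.pow_mem _ (X_mem hc.2.1) _)
        (Subalgebra.mul_mem _ (Subalgebra.pow_mem _ (X_mem hc.1) _) (Subalgebra.pow_mem _ (X_mem hc.2.2) _))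
  · apply dep E _ h (X 3 ^ 4 - X 0 ^ 1 * X 4 ^ 3) ![0, 0, 0, 1, 0, 0, 0, 0]
    · simp
    · intro u
      simp [Phi, f]
      ring
    · exact Subalgebra.sub_mem _ (Subalgebra.pow_mem _ (X_mem hc.2.1) _)
        (Subalgebra.mul_mem _ (Subalgebra.pow_mem _ (X_mem hc.1) _) (Subalgebra.pow_mem _ (X_mem hc.2.2) _))
  · apply dep E _ h (X 2 ^ 2 - X 1 ^ 1 * X 3 ^ 1) ![0, 0, 1, 0, 0, 0, 0, 0]
    · simp
    · intro u
      simp [Phi, f]
      ring
    · exact Subalgebra.sub_mem _ (Subalgebra.pow_mem _ (X_mem hc.2.1) _)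
        (Subalgebra.mul_mem _ (Subalgebra.pow_mem _ (X_mem hc.1) _) (Subalgebra.pow_mem _ (X_mem hc.2.2) _))
  · apply dep E _ h (X 2 ^ 3 - X 1 ^ 2 * X 4 ^ 1) ![0, 0, 1, 0, 0, 0, 0, 0]
    · simp
    · intro u
      simp [Phi, f]
      ring
    · exact Subalgebra.sub_mem _ (Subalgebra.pow_mem _ (X_mem hc.2.1) _)
        (Subalgebra.mul_mem _ (Subalgebra.pow_mem _ (X_mem hc.1) _) (Subalgebra.pow_mem _ (X_mem hc.2.2) _))
  · apply dep E _ h (X 3 ^ 3 - X 1 ^ 1 * X 4 ^ 2) ![0, 0, 0, 1, 0, 0, 0, 0]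
    · simp
    · intro u
      simp [Phi, f]
      ring
    · exact Subalgebra.sub_mem _ (Subalgebra.pow_mem _ (X_mem hc.2.1) _)
        (Subalgebra.mul_mem _ (Subalgebra.pow_mem _ (X_mem hc.1) _) (Subalgebra.pow_mem _ (X_mem hc.2.2) _))
  · apply dep E _ h (X 3 ^ 2 - X 2 ^ 1 * X 4 ^ 1) ![0, 0, 0, 1, 0, 0, 0, 0]
    · simp
    · intro u
      simp [Phi, f]
      ring
    · exact Subalgebra.sub_mem _ (Subalgebra.pow_mem _ (X_mem hc.2.1) _)
        (Subalgebra.mul_mem _ (Subalgebra.pow_mem _ (X_mem hc.1) _) (Subalgebra.pow_mem _ (X_mem hc.2.2) _))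
  · apply dep E _ h (X 6 ^ 2 - X 5 * X 7) ![0, 0, 0, 0, 0, 0, 1, 0]
    · simp
    · intro u
      simp [Phi, f]
      ring
    · exact Subalgebra.sub_mem _ (Subalgebra.pow_mem _ (X_mem hc.2.1) _)
        (Subalgebra.mul_mem _ (X_mem hc.1) (X_mem hc.2.2))

lemma indep_sec_iff [CharZero K] (E : Finset (Fin 8)) :
    Indep (sec (Cone K)) E ↔ ¬ A ⊆ E := by
  have : Infinite K := CharZero.infinite K
  exact ⟨fun h hA => not_indep_sec E hA h, indep_sec_of E⟩

lemma decU : ∀ E : Finset (Fin 8), ¬ A ⊆ E → ∃ E₁ : Finset (Fin 8), E₁ ⊆ E ∧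
    (E₁ ∩ A).card ≤ 2 ∧ (E₁ ∩ B).card ≤ 2 ∧ ((E \ E₁) ∩ A).card ≤ 2 ∧ ((E \ E₁) ∩ B).card ≤ 2 := by
  decide +kernel

lemma terracini [CharZero K] : IsTerraciniUnion (Cone K) := by
  intro E
  rw [indep_sec_iff]
  constructor
  · intro h
    obtain ⟨E₁, h1, h2, h3, h4, h5⟩ := decU E h
    refine ⟨E₁, E \ E₁, (indep_cone_iff _).2 ⟨h2, h3⟩, (indep_cone_iff _).2 ⟨h4, h5⟩, ?_⟩
    rw [Finset.union_sdiff_of_subset h1]
  · rintro ⟨E₁, E₂, h1, h2, rfl⟩ h
    rw [indep_cone_iff] at h1 h2
    have h3 : ((E₁ ∪ E₂) ∩ A).card = 5 := by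
      rw [Finset.inter_eq_right.2 h]
      rfl
    rw [Finset.union_inter_distrib_right] at h3
    have h4 := Finset.card_union_le (E₁ ∩ A) (E₂ ∩ A)
    omega

lemma defective [CharZero K] : Defective (Cone K) := by
  have h1 : 4 ≤ dim (Cone K) := by
    apply le_csSup
    · exact ⟨8, by rintro k ⟨E, _, rfl⟩; exact le_trans (Finset.card_le_univ E) (by simp)⟩
    · exact ⟨{0, 1, 5, 6}, (indep_cone_iff _).2 (by decide), rfl⟩
  have h2 : dim (sec (Cone K)) ≤ 7 := by
    apply csSup_le
    · exact ⟨0, ∅, (indep_sec_iff _).2 (by decide), rfl⟩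
    · rintro k ⟨E, hE, rfl⟩
      rw [indep_sec_iff] at hE
      by_contra hcon
      apply hE
      have : E = Finset.univ := by
        apply Finset.eq_univ_of_card
        have := Finset.card_le_univ E
        simp at this ⊢
        omega
      rw [this]
      exact Finset.subset_univ _
  unfold Defective
  omega

lemma decL : ∀ e : Fin 8, ∃ E : Finset (Fin 8), ((E ∩ A).card ≤ 2 ∧ (E ∩ B).card ≤ 2) ∧ e ∈ E := by
  intro e
  exact ⟨{e}, by revert e; decide +kernel, by simp⟩

lemma decC : ∀ e : Fin 8, ∃ E : Finset (Fin 8), ((E ∩ A).card = 2 ∧ (E ∩ B).card = 2) ∧ e ∉ E := by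
  intro e
  by_cases h : e ∈ ({0, 1, 5, 6} : Finset (Fin 8))
  · by_cases h' : e ∈ ({0, 1} : Finset (Fin 8))
    · exact ⟨{2, 3, 5, 6}, by decide +kernel, by revert e; decide +kernel⟩
    · by_cases h5 : e = 5
      · exact ⟨{0, 1, 6, 7}, by decide +kernel, by subst h5; decide +kernel⟩
      · exact ⟨{0, 1, 5, 7}, by decide +kernel, by revert e; decide +kernel⟩
  · exact ⟨{0, 1, 5, 6}, by decide +kernel, h⟩

lemma no_loop [CharZero K] (e : Fin 8) : ¬ IsLoop (Cone K) e := by
  intro h
  obtain ⟨E, hE, he⟩ := decL e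
  exact h E ((indep_cone_iff E).2 hE) he

lemma no_coloop [CharZero K] (e : Fin 8) : ¬ IsColoop (Cone K) e := by
  intro h
  obtain ⟨E, hE, he⟩ := decC e
  apply he
  apply h E
  refine ⟨(indep_cone_iff E).2 ⟨hE.1.le, hE.2.le⟩, ?_⟩
  intro F hF hEF
  rw [indep_cone_iff] at hF
  have hU : A ∪ B = Finset.univ := by decide
  have h1 : E ∩ A = F ∩ A := by
    apply Finset.eq_of_subset_of_card_le
    · exact Finset.inter_subset_inter_right hEF
    · omega
  have h2 : E ∩ B = F ∩ B := by
    apply Finset.eq_of_subset_of_card_le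
    · exact Finset.inter_subset_inter_right hEF
    · omega
  have h3 : F = E := by
    calc F = F ∩ (A ∪ B) := by rw [hU, Finset.inter_univ]
      _ = E ∩ (A ∪ B) := by rw [Finset.inter_union_distrib_left, Finset.inter_union_distrib_left, h1, h2]
      _ = E := by rw [hU, Finset.inter_univ]
  exact h3.le

end Cone

/-- **A defective irreducible affine cone without loops and coloops whose secant matroid is a
Terracini union exists over every algebraically closed field of characteristic zero.** -/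
theorem result (K : Type*) [Field K] [IsAlgClosed K] [CharZero K] :
    ∃ (N : ℕ) (X : Set (Fin N → K)), IsIrreducibleCone X ∧ Defective X ∧ IsTerraciniUnion X ∧
      (∀ e, ¬ IsLoop X e) ∧ (∀ e, ¬ IsColoop X e) :=
  ⟨8, Cone K, irreducible_cone, defective, terracini, no_loop, no_coloop⟩

end Pool.Agent.Results.MP_0cb83c_co.ProductCone
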